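import Pool.Agent.helper7.DF.Spec2

/-!
# Project DF, row MSL: a large sieve for products of primes
-/

set_option autoImplicit false

open Finset

namespace Pool.Agent.DFO

open Pool.Agent.helper85.BVP (ex)
open Pool.Agent.helper85.MT (farey farey_sieve)

lemma msl_SE_zero (E : Finset ℕ) : SE E 0 = (#E : ℂ) := by
  simp [SE, ex]

lemma msl_sieve (N R : ℕ) (hR : 1 ≤ R) (E : Finset ℕ) (hE : E ⊆ Ioc 0 N) :
    ∑ p ∈ farey R, ‖SE E ((p.2 : ℝ) / p.1)‖ ^ 2 ≤ 5 * ((N : ℝ) + (R : ℝ) ^ 2) * #E := by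
  have h := farey_sieve R 0 N hR (fun n => if n ∈ E then 1 else 0)
  rw [Nat.zero_add] at h
  have e1 : ∀ β : ℝ, ∑ n ∈ Ioc 0 N, (if n ∈ E then (1:ℂ) else 0) * ex ((n : ℝ) * β) = SE E β := by
    intro β
    simp_rw [ite_mul, one_mul, zero_mul]
    rw [← sum_filter, filter_mem_eq_inter, inter_eq_right.mpr hE]
    rfl
  have e2 : ∑ n ∈ Ioc 0 N, ‖(if n ∈ E then (1:ℂ) else 0)‖ ^ 2 = (#E : ℝ) := by
    have e3 : ∀ n : ℕ, ‖(if n ∈ E then (1:ℂ) else 0)‖ ^ 2 = if n ∈ E then (1:ℝ) else 0 := by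
      intro n
      split_ifs <;> simp
    simp_rw [e3]
    rw [← sum_filter, filter_mem_eq_inter, inter_eq_right.mpr hE]
    simp
  simp only [e1] at h
  rw [e2] at h
  exact h

lemma msl_pairs (R Y u : ℕ) (P : Finset ℕ) (hP : ∀ p ∈ P, p.Prime ∧ p ≤ Y) (hY : Y ^ u ≤ R)
    (f : ℕ × ℕ → ℝ) (hf : ∀ x, 0 ≤ f x) :
    ∑ T ∈ powersetCard u P, ∑ a ∈ (range (∏ p ∈ T, p)).filter (fun a => Nat.Coprime a (∏ p ∈ T, p)),
      f (∏ p ∈ T, p, a) ≤ ∑ x ∈ farey R, f x := by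
  rw [sum_sigma']
  set S := (powersetCard u P).sigma
    (fun T => (range (∏ p ∈ T, p)).filter (fun a => Nat.Coprime a (∏ p ∈ T, p))) with hS
  have hT : ∀ T ∈ powersetCard u P, (∀ p ∈ T, p.Prime ∧ p ≤ Y) ∧ #T = u := by
    intro T hT
    rw [mem_powersetCard] at hT
    exact ⟨fun p hp => hP p (hT.1 hp), hT.2⟩
  have hinj : Set.InjOn (fun x : (_ : Finset ℕ) × ℕ => ((∏ p ∈ x.1, p, x.2) : ℕ × ℕ)) S := by
    rintro ⟨T, a⟩ hx ⟨T', a'⟩ hx' he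
    rw [mem_coe, hS, mem_sigma] at hx hx'
    have h1 := (hT _ hx.1).1
    have h2 := (hT _ hx'.1).1
    simp only [Prod.mk.injEq] at he
    obtain ⟨he1, he2⟩ := he
    have h3 := Nat.primeFactors_prod (fun p hp => (h1 p hp).1)
    have h4 := Nat.primeFactors_prod (fun p hp => (h2 p hp).1)
    simp only at h3 h4
    have h5 : T = T' := by rw [← h3, ← h4, he1]
    subst h5
    subst he2
    rfl
  rw [← sum_image (f := f) hinj]
  refine sum_le_sum_of_subset_of_nonneg ?_ (fun x _ _ => hf x)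
  intro y hy
  rw [mem_image] at hy
  obtain ⟨⟨T, a⟩, hx, rfl⟩ := hy
  rw [hS, mem_sigma, mem_filter, mem_range] at hx
  obtain ⟨hx1, hx2, hx3⟩ := hx
  simp only at hx1 hx2 hx3
  obtain ⟨h1, h2⟩ := hT T hx1
  have h3 : ∏ p ∈ T, p ≤ R := by
    refine le_trans ?_ hY
    have := Finset.prod_le_pow_card T (fun p => p) Y (fun p hp => (h1 p hp).2)
    rwa [h2] at this
  have h4 : 1 ≤ ∏ p ∈ T, p := Nat.succ_le_of_lt (prod_pos fun p hp => (h1 p hp).1.pos)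
  rw [farey, mem_filter, mem_product, mem_Icc, mem_range]
  exact ⟨⟨⟨h4, h3⟩, lt_of_lt_of_le hx2 h3⟩, hx2, hx3⟩

/-- **MSL**. -/
theorem MSL (hMSQ : MSQ_stmt) : MSL_stmt := by
  intro N R Y u E P hR hE hP hY
  have h1 := msl_sieve N R hR E hE
  have h2 := msl_pairs R Y u P (fun p hp => ⟨(hP p hp).1, (hP p hp).2.1⟩) hY
    (fun x => ‖SE E ((x.2 : ℝ) / x.1)‖ ^ 2) (fun x => by positivity)
  have h3 : ((#P).choose u : ℝ) * (#E : ℝ) ^ 2
      ≤ 2 ^ u * ∑ T ∈ powersetCard u P,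
        ∑ a ∈ (range (∏ p ∈ T, p)).filter (fun a => Nat.Coprime a (∏ p ∈ T, p)),
          ‖SE E ((a : ℝ) / ((∏ p ∈ T, p : ℕ) : ℝ))‖ ^ 2 := by
    rw [mul_sum]
    have h4 : ((#P).choose u : ℝ) * (#E : ℝ) ^ 2 = ∑ T ∈ powersetCard u P, (#E : ℝ) ^ 2 := by
      rw [sum_const, card_powersetCard, nsmul_eq_mul]
    rw [h4]
    refine sum_le_sum fun T hT => ?_
    rw [mem_powersetCard] at hT
    have h5 := hMSQ T E (fun p hp => ⟨(hP p (hT.1 hp)).1, (hP p (hT.1 hp)).2.2⟩) 0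
    rw [msl_SE_zero, hT.2] at h5
    simp only [zero_add, Complex.norm_natCast] at h5
    exact h5
  have h6 : ((#P).choose u : ℝ) * (#E : ℝ) ^ 2
      ≤ 2 ^ u * (5 * ((N : ℝ) + (R : ℝ) ^ 2) * #E) :=
    h3.trans (mul_le_mul_of_nonneg_left (h2.trans h1) (by positivity))
  rcases Nat.eq_zero_or_pos (#E) with h7 | h7
  · rw [h7]
    simp only [Nat.cast_zero, mul_zero]
    positivity
  · have h8 : (0 : ℝ) < #E := by exact_mod_cast h7
    refine le_of_mul_le_mul_right ?_ h8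
    calc ((#P).choose u : ℝ) * #E * #E = ((#P).choose u : ℝ) * (#E : ℝ) ^ 2 := by ring
      _ ≤ 2 ^ u * (5 * ((N : ℝ) + (R : ℝ) ^ 2) * #E) := h6
      _ = 2 ^ u * (5 * ((N : ℝ) + (R : ℝ) ^ 2)) * #E := by ring

end Pool.Agent.DFO
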